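import Pool.Agent.H543.MQ.Pairs

/-!
# Almost prime solutions of `a P ^ 2 + b P + c = d Q` in bounded clusters
-/

set_option autoImplicit false

namespace Pool.Agent.Results.MP_f37147_nt.ClustersOfAlmostPrimePairs

open Finset Filter

/-- `n > 0` has at most `r` prime factors (with multiplicity), all of them `≥ y`. -/
def AlmostPrime (r : ℕ) (y : ℝ) (n : ℤ) : Prop :=
  0 < n ∧ n.natAbs.primeFactorsList.length ≤ r ∧ ∀ p : ℕ, p.Prime → (p : ℤ) ∣ n → y ≤ p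

/-- `P = d x + x₀` is almost prime (at most `r` prime factors, all `≥ N ^ δ`) and
`Q = (a P ^ 2 + b P + c) / d` is an integer with at most two prime factors, all `≥ N ^ (6 / 25)`. -/
def Good (a b c d x₀ : ℤ) (r : ℕ) (δ : ℝ) (N x : ℕ) : Prop :=
  AlmostPrime r ((N : ℝ) ^ δ) (d * x + x₀) ∧
    ∃ Q : ℤ, a * (d * x + x₀) ^ 2 + b * (d * x + x₀) + c = d * Q ∧
      AlmostPrime 2 ((N : ℝ) ^ (6 / 25 : ℝ)) Q


open Classical in
/-- The number of the `n` in `(N, N + X]` such that all `n + h`, `h ∈ H`, are good. -/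
noncomputable def number (a b c d x₀ : ℤ) (r : ℕ) (δ : ℝ) (H : Finset ℕ) (N X : ℕ) : ℕ :=
  ((Ioc N (N + X)).filter (fun n : ℕ => ∀ h ∈ H, Good a b c d x₀ r δ N (n + h))).card

/-- There is a progression `n, n + e, ..., n + (l - 1) e` in `(N, N + X]` with difference
`1 ≤ e ≤ (log N) ^ B` such that all `n + j e + h`, `j < l`, `h ∈ H`, are good. -/
def Progression (a b c d x₀ : ℤ) (r : ℕ) (δ : ℝ) (H : Finset ℕ) (l B N X : ℕ) : Prop :=
  ∃ n e : ℕ, N < n ∧ n + (l - 1) * e ≤ N + X ∧ 1 ≤ e ∧ (e : ℝ) ≤ Real.log N ^ B ∧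
    ∀ j < l, ∀ h ∈ H, Good a b c d x₀ r δ N (n + j * e + h)

/-- The pattern `H` occurs again and again: for every `l` there are infinitely many `N` such that the
interval `(N, N + X]`, `X = ⌈N ^ (1 - δ₀)⌉`, contains at least `X / (log N) ^ D` integers `n` with all
`n + h`, `h ∈ H`, good, and a progression of length `l` of such `n` with difference at most a power of
`log N`. -/
def Recurrent (a b c d x₀ : ℤ) (r : ℕ) (δ₀ δ : ℝ) (D : ℕ) (H : Finset ℕ) : Prop :=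
  ∀ l : ℕ, 2 ≤ l → ∃ B : ℕ, ∃ᶠ N : ℕ in atTop,
    (⌈(N : ℝ) ^ (1 - δ₀)⌉₊ : ℝ) / Real.log N ^ D ≤ number a b c d x₀ r δ H N ⌈(N : ℝ) ^ (1 - δ₀)⌉₊ ∧
    Progression a b c d x₀ r δ H l B N ⌈(N : ℝ) ^ (1 - δ₀)⌉₊

open Classical in
/-- **Bounded clusters of pairs `(P, Q)`, `a P ^ 2 + b P + c = d Q`, `P` almost prime, `Q` a `P₂`**, for
every admissible `(a, b, c, d)` and every admissible class `x₀` modulo `d`. -/
theorem result (a b c d x₀ y₀ : ℤ) (ha : 0 < a) (hd : 0 < d)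
    (hD : ¬ IsSquare (b ^ 2 - 4 * a * c)) (hco : Int.gcd (x₀ * y₀) (6 * a * d) = 1)
    (hxy : a * x₀ ^ 2 + b * x₀ + c = d * y₀) :
    ∃ δ₀ : ℝ, 0 < δ₀ ∧ ∀ m : ℕ, ∃ (K D r : ℕ) (δ : ℝ), 0 < δ ∧
      -- every set with at least `K` elements contains a pattern with `m` elements
      (∀ S : Finset ℕ, K ≤ S.card → ∀ l : ℕ, 2 ≤ l → ∃ B : ℕ, ∀ᶠ N : ℕ in atTop,
        ∀ X : ℕ, (N : ℝ) ^ (1 - δ₀) ≤ X → 2 * X ≤ N → ∃ H ⊆ S, H.card = m ∧
          X / Real.log N ^ D ≤ number a b c d x₀ r δ H N X ∧ Progression a b c d x₀ r δ H l B N X) ∧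
      -- a positive proportion of the patterns with `m` elements are recurrent
      (∀ U : Finset ℕ, K ≤ U.card → U.card.choose m ≤
        K.choose m * ((U.powersetCard m).filter (Recurrent a b c d x₀ r δ₀ δ D)).card) := by
  obtain ⟨δ₀, h0, h⟩ := Pool.Agent.H543.MQ.pairs a b c d x₀ y₀ ha hd hD hco hxy
  refine ⟨δ₀, h0, fun m => ?_⟩
  obtain ⟨K, D, r, δ, hδ, h⟩ := h m
  exact ⟨K, D, r, δ, hδ, h (fun N x => Good a b c d x₀ r δ N x) (fun N x _ h1 h2 => ⟨h1, h2⟩)⟩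

end Pool.Agent.Results.MP_f37147_nt.ClustersOfAlmostPrimePairs
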